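import Pool.Agent.W21.RV.Defs
import Pool.Agent.H442R2.BX.Tt

/-!
RV project (helper21), task TT: off-diagonal correlations for residues up to `N²`.
Adapted from `Pool/Agent/H442R2/BX/Tt.lean`.
-/

set_option autoImplicit false

namespace Pool.Agent.W48.RV

open Finset
open Pool.Agent.H442R2
open Pool.Agent.H442R2.KF
open Pool.Agent.W21.RV
open Pool.Agent.H442R2.BX (SE Rf rf nuS CofO CofR Rough roughs SW)

open Pool.Agent.H442R2.BX.TaskTT in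
/-- **TT**: off-diagonal correlations, residues up to `N²`. -/
theorem TT (hCO : St_CO) (hSM : BX.St_SM) (hEX : BX.St_EX) (hNC : St_NC) (hRB : BX.St_RB)
    (hPB : St_PB) : St_TT := by
  intro θ ε hθ hε
  obtain ⟨ε₁, η₁, C₁, hε₁, hη₁, hC₁, hCO'⟩ := hCO θ hθ
  obtain ⟨N₁, hSM'⟩ := hSM
  obtain ⟨C₂, hC₂, hNC'⟩ := hNC ε hε
  obtain ⟨C₃, hC₃, hRB'⟩ := hRB ε hε
  obtain ⟨N₂, C₄, hC₄, hPB'⟩ := hPB ε hε
  obtain ⟨N₃, hN₃⟩ : ∃ N₃ : ℕ, ∀ N : ℕ, N₃ ≤ N → (2 : ℝ) ≤ (N : ℝ) ^ ε := by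
    have h := ((tendsto_rpow_atTop hε).comp tendsto_natCast_atTop_atTop).eventually
      (Filter.eventually_ge_atTop (2 : ℝ))
    obtain ⟨N₃, h3⟩ := Filter.eventually_atTop.1 h
    exact ⟨N₃, fun N hN => h3 N hN⟩
  obtain ⟨ε₀, hε₀, he1, he2, he3, he4⟩ : ∃ ε₀ : ℝ, 0 < ε₀ ∧ ε₀ ≤ ε₁ / 2 ∧ ε₀ ≤ η₁ / 8 ∧
      ε₀ ≤ ε / 16 ∧ ε₀ ≤ 1 / 100 := by
    refine ⟨min (min (ε₁ / 2) (η₁ / 8)) (min (ε / 16) (1 / 100)), ?_, ?_, ?_, ?_, ?_⟩
    · exact lt_min (lt_min (by positivity) (by positivity)) (lt_min (by positivity) (by norm_num))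
    · exact (min_le_left _ _).trans (min_le_left _ _)
    · exact (min_le_left _ _).trans (min_le_right _ _)
    · exact (min_le_right _ _).trans (min_le_left _ _)
    · exact (min_le_right _ _).trans (min_le_right _ _)
  obtain ⟨η, hη, hh1, hh2, hh3⟩ : ∃ η : ℝ, 0 < η ∧ η ≤ η₁ / 2 ∧ η ≤ ε / 4 ∧ η ≤ 1 / 4 := by
    refine ⟨min (η₁ / 2) (min (ε / 4) (1 / 4)), ?_, ?_, ?_, ?_⟩
    · exact lt_min (by positivity) (lt_min (by positivity) (by norm_num))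
    · exact min_le_left _ _
    · exact (min_le_right _ _).trans (min_le_left _ _)
    · exact (min_le_right _ _).trans (min_le_right _ _)
  set N₀ := max N₁ (max N₂ N₃) with hN₀
  set Bs : ℝ := ∑ N ∈ range N₀, (∑' n : ℤ, Wt N n) * (N : ℝ) ^ 4 with hBs
  have hWs : ∀ N : ℕ, 0 ≤ (∑' n : ℤ, Wt N n) * (N : ℝ) ^ 4 := fun N =>
    mul_nonneg (tsum_nonneg fun n => Wt_nonneg N n) (by positivity)
  have hBs0 : 0 ≤ Bs := Finset.sum_nonneg fun N _ => hWs N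
  refine ⟨ε₀, η, Bs + (C₁ + 3 + 2 * C₂ + 6 * C₃ + 4 * C₄), hε₀, hη, by positivity, ?_⟩
  intro N z D0 X hN hz hzN hXθ hD0 hXD lam hlam c c' hc hc' hcD hcD' a a' ha ha' haa
  have hN0 : (0 : ℝ) < N := by exact_mod_cast (by omega : 0 < N)
  have hN1 : (1 : ℝ) ≤ N := by exact_mod_cast (by omega : 1 ≤ N)
  have hNle : ∀ s t : ℝ, s ≤ t → (N : ℝ) ^ s ≤ (N : ℝ) ^ t := fun s t hst =>
    Real.rpow_le_rpow_of_exponent_le hN1 hst
  have hzN' : z ≤ N := by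
    have h1 : (z : ℝ) ≤ N := by
      calc (z : ℝ) ≤ (N : ℝ) ^ ε₀ := hzN
        _ ≤ (N : ℝ) ^ (1 : ℝ) := hNle _ _ (by linarith)
        _ = N := Real.rpow_one _
    exact_mod_cast h1
  have hXN' : X ≤ N := by
    have h1 : (X : ℝ) ≤ N := by
      calc (X : ℝ) ≤ (N : ℝ) ^ θ := hXθ
        _ ≤ (N : ℝ) ^ (1 : ℝ) := hNle _ _ (by linarith)
        _ = N := Real.rpow_one _
    exact_mod_cast h1
  have hNη : (1 : ℝ) ≤ (N : ℝ) ^ (1 - η) := Real.one_le_rpow hN1 (by linarith)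
  by_cases hsmall : N < N₀
  · -- small N
    have h1 := triv N z X (by omega) hzN' hXN' lam hlam.bd c c' hc.bd hc'.bd a a'
    have h2 : (∑' n : ℤ, Wt N n) * (N : ℝ) ^ 4 ≤ Bs :=
      Finset.single_le_sum (f := fun N : ℕ => (∑' n : ℤ, Wt N n) * (N : ℝ) ^ 4)
        (fun N _ => hWs N) (Finset.mem_range.2 hsmall)
    have h3 : Bs ≤ Bs + (C₁ + 3 + 2 * C₂ + 6 * C₃ + 4 * C₄) := by
      have : 0 ≤ C₁ + 3 + 2 * C₂ + 6 * C₃ + 4 * C₄ := by positivity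
      linarith
    calc _ ≤ Bs := h1.trans h2
      _ ≤ Bs + (C₁ + 3 + 2 * C₂ + 6 * C₃ + 4 * C₄) := h3
      _ ≤ (Bs + (C₁ + 3 + 2 * C₂ + 6 * C₃ + 4 * C₄)) * (N : ℝ) ^ (1 - η) :=
          le_mul_of_one_le_right (by positivity) hNη
  push Not at hsmall
  have hNN1 : N₁ ≤ N := (le_max_left _ _).trans hsmall
  have hNN2 : N₂ ≤ N := (le_max_left _ _).trans ((le_max_right _ _).trans hsmall)
  have hNN3 : N₃ ≤ N := (le_max_right _ _).trans ((le_max_right _ _).trans hsmall)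
  have hNε : (2 : ℝ) ≤ (N : ℝ) ^ ε := hN₃ N hNN3
  have hzε : (z : ℝ) ≤ (N : ℝ) ^ ε := hzN.trans (hNle _ _ (by linarith))
  -- one pair (q₁, q₂)
  set K : ℝ := C₁ * (N : ℝ) ^ (1 - η₁) + 3 + C₂ * ((N : ℝ) ^ (1 - ε) + X) +
    3 * (N + 1) * (C₃ * (N : ℝ) ^ (-(ε / 2))) with hK
  have hK0 : 0 ≤ K := by positivity
  have hz2 : (z : ℝ) ^ 2 ≤ (N : ℝ) ^ (2 * ε₀) := by
    calc (z : ℝ) ^ 2 ≤ ((N : ℝ) ^ ε₀) ^ 2 := pow_le_pow_left₀ (by positivity) hzN 2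
      _ = (N : ℝ) ^ (2 * ε₀) := by
        rw [← Real.rpow_natCast, ← Real.rpow_mul hN0.le]
        congr 1
        push_cast
        ring
  have hpair : ∀ q₁ ∈ Icc 1 z, ∀ q₂ ∈ Icc 1 z, lam q₁ ≠ 0 → lam q₂ ≠ 0 →
      |∑ d ∈ Icc 1 X, ∑ d' ∈ Icc 1 X,
        c d * c' d' * (SE N a a' (Nat.lcm q₁ q₂) d d' - SE N a a' (Nat.lcm q₁ q₂) d 1 / d' -
          SE N a a' (Nat.lcm q₁ q₂) 1 d' / d + SE N a a' (Nat.lcm q₁ q₂) 1 1 / (d * d'))| ≤ K := by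
    intro q₁ hq₁ q₂ hq₂ hl₁ hl₂
    obtain ⟨h11, h12, h13⟩ := hlam.supp q₁ hl₁
    obtain ⟨h21, h22, h23⟩ := hlam.supp q₂ hl₂
    set q := Nat.lcm q₁ q₂ with hqdef
    have hqpos : 1 ≤ q := Nat.lcm_pos (by omega) (by omega)
    have hqodd : Odd q := by
      have h1 : q ∣ q₁ * q₂ := Nat.lcm_dvd_mul q₁ q₂
      exact (h13.mul h23).of_dvd_nat h1
    have hqle : (q : ℝ) ≤ (N : ℝ) ^ (2 * ε₀) := by
      have h1 : q ≤ q₁ * q₂ := Nat.le_of_dvd (by positivity) (Nat.lcm_dvd_mul q₁ q₂)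
      have h2 : q ≤ z * z := h1.trans (Nat.mul_le_mul h12 h22)
      have h3 : (q : ℝ) ≤ (z : ℝ) ^ 2 := by
        rw [sq]; exact_mod_cast h2
      exact h3.trans hz2
    have hcop : ∀ d : ℕ, Rough ((N : ℝ) ^ ε) d → Nat.Coprime d (2 * q) := by
      intro d hd
      refine Nat.Coprime.symm (Nat.coprime_of_dvd ?_)
      intro p hp hp1 hp2
      have h1 := hd.2 p hp hp2
      rcases (Nat.Prime.dvd_mul hp).1 hp1 with h2 | h2
      · have h3 : p ≤ 2 := Nat.le_of_dvd (by norm_num) h2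
        have h4 : (p : ℝ) ≤ 2 := by exact_mod_cast h3
        linarith
      · have h3 : p ∣ q₁ * q₂ := h2.trans (Nat.lcm_dvd_mul q₁ q₂)
        have h4 : p ≤ z := by
          rcases (Nat.Prime.dvd_mul hp).1 h3 with h4 | h4
          · exact (Nat.le_of_dvd (by omega) h4).trans h12
          · exact (Nat.le_of_dvd (by omega) h4).trans h22
        have h5 : (p : ℝ) ≤ z := by exact_mod_cast h4
        linarith
    have hcO : CofO q c := ⟨hc.bd, fun d hd => hcop d (hc.supp d hd).2⟩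
    have hcO' : CofO q c' := ⟨hc'.bd, fun d hd => hcop d (hc'.supp d hd).2⟩
    have hXε : (X : ℝ) ≤ (N : ℝ) ^ ε₁ * D0 := by
      refine hXD.trans (mul_le_mul_of_nonneg_right (hNle _ _ (by linarith)) (by positivity))
    have h910 : ∀ d : ℕ, 1 ≤ d → d ≤ X → ((q : ℝ) * d) ≤ (N : ℝ) ^ (9 / 10 : ℝ) := by
      intro d _ hdX
      have h1 : (d : ℝ) ≤ (N : ℝ) ^ θ := (by exact_mod_cast hdX : (d : ℝ) ≤ X).trans hXθ
      calc (q : ℝ) * d ≤ (N : ℝ) ^ (2 * ε₀) * (N : ℝ) ^ θ :=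
            mul_le_mul hqle h1 (by positivity) (by positivity)
        _ = (N : ℝ) ^ (2 * ε₀ + θ) := (Real.rpow_add hN0 _ _).symm
        _ ≤ (N : ℝ) ^ (9 / 10 : ℝ) := hNle _ _ (by linarith)
    have hq910 : ((q : ℝ) * (1 : ℕ)) ≤ (N : ℝ) ^ (9 / 10 : ℝ) := by
      rw [Nat.cast_one, mul_one]
      exact hqle.trans (hNle _ _ (by linarith))
    have hsm1 : |SE N a a' q 1 1 - N / q| ≤ 1 / (N : ℝ) ^ 5 := by
      have := (hSM' N hNN1 a a' q 1 hqpos le_rfl (Nat.coprime_one_right q) hq910).1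
      simpa using this
    refine one_q N q D0 X ((N : ℝ) ^ ε) hN hqpos hD0 hXN' a a' c c' hc hc' hcD hcD' ?_ hsm1
      (C₁ * (N : ℝ) ^ (1 - η₁)) (C₂ * ((N : ℝ) ^ (1 - ε) + X)) (C₃ * (N : ℝ) ^ (-(ε / 2)))
      ?_ ?_ ?_
    · intro d hd1 hdX hd
      have hqd : Nat.Coprime q d := by
        rcases hd with hd | hd | hd
        · exact (Nat.Coprime.coprime_mul_left_right (hcO.cop d hd)).symm
        · exact (Nat.Coprime.coprime_mul_left_right (hcO'.cop d hd)).symm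
        · rw [hd]; exact Nat.coprime_one_right q
      exact hSM' N hNN1 a a' q d hqpos hd1 hqd (h910 d hd1 hdX)
    · exact hCO' N q D0 X hN hqpos hqodd (hqle.trans (hNle _ _ (by linarith))) hXθ hD0 hXε
        a a' haa c c' hcO hcO'
    · exact hNC' N q X hN hqpos hXN' a a' ha ha' haa
    · have hsub : roughs ((N : ℝ) ^ ε) X ⊆ roughs ((N : ℝ) ^ ε) N := by
        classical
        intro d hd
        unfold roughs at hd ⊢
        rw [Finset.mem_filter, Finset.mem_Icc] at hd ⊢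
        exact ⟨⟨hd.1.1, hd.1.2.trans hXN'⟩, hd.2⟩
      refine le_trans ?_ (hRB' N hN)
      calc ∑ d ∈ roughs ((N : ℝ) ^ ε) X,
            ∑ d' ∈ (roughs ((N : ℝ) ^ ε) X).filter (fun d' => ¬ Nat.Coprime d d'),
              1 / ((d : ℝ) * d')
          ≤ ∑ d ∈ roughs ((N : ℝ) ^ ε) X,
            ∑ d' ∈ (roughs ((N : ℝ) ^ ε) N).filter (fun d' => ¬ Nat.Coprime d d'),
              1 / ((d : ℝ) * d') := by
            refine Finset.sum_le_sum fun d _ => ?_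
            exact Finset.sum_le_sum_of_subset_of_nonneg (Finset.filter_subset_filter _ hsub)
              fun _ _ _ => by positivity
        _ ≤ _ := Finset.sum_le_sum_of_subset_of_nonneg hsub
              fun _ _ _ => Finset.sum_nonneg fun _ _ => by positivity
  -- (1)
  obtain ⟨hs1, hs2, hs3⟩ := hEX N z X (by omega) lam c c' a a'
  have hpart1 : |∑' n : ℤ, Wt N n * nuS lam z n * (Rf c X a n * Rf c' X a' n)| ≤
      (z : ℝ) ^ 2 * K := by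
    rw [hs3]
    refine (abs_dsum_le (Icc 1 z) lam lam hlam.bd hlam.bd _ (fun _ _ => K) ?_ ?_).trans ?_
    · intro q₁ hq₁ q₂ hq₂ h1 h2
      exact hpair q₁ hq₁ q₂ hq₂ h1 h2
    · intro _ _ _ _; exact hK0
    · simp only [Finset.sum_const, nsmul_eq_mul, Nat.card_Icc, Nat.add_sub_cancel]
      exact le_of_eq (by ring)
  -- (2)
  have hpts := two_pts (Wt N) (nuS lam z) (Rf c X a) (Rf c' X a') (rf c X a) (rf c' X a')
    a a' haa hs1 hs2 (fun n => rfl) (fun n => rfl)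
  have hval : ∀ (u : ℕ → ℝ), CofR ((N : ℝ) ^ ε) X u → ∀ b n : ℤ, |(b : ℝ)| ≤ (N : ℝ) ^ 2 →
      |(n : ℝ)| ≤ (N : ℝ) ^ 2 → n ≠ b → |Rf u X b n| ≤ 2 * C₄ := by
    intro u hu b n hb hn hnb
    have hnb2 : |((n - b : ℤ) : ℝ)| ≤ (N : ℝ) ^ 2 * 2 := by
      rw [Int.cast_sub]
      have h6 := abs_sub (n : ℝ) (b : ℝ)
      linarith
    have h1 := hPB' N X hNN2 hXN' u hu b n 2 (by norm_num) hnb2
    have h2 : rf u X b n = Rf u X b n := by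
      unfold rf; rw [if_neg hnb]
    rw [h2] at h1
    have h3 : (2 : ℝ) ^ (1 / 4 : ℝ) ≤ 2 := by
      calc (2 : ℝ) ^ (1 / 4 : ℝ) ≤ (2 : ℝ) ^ (1 : ℝ) :=
            Real.rpow_le_rpow_of_exponent_le (by norm_num) (by norm_num)
        _ = 2 := Real.rpow_one _
    calc |Rf u X b n| ≤ C₄ * (2 : ℝ) ^ (1 / 4 : ℝ) := h1
      _ ≤ C₄ * 2 := mul_le_mul_of_nonneg_left h3 hC₄.le
      _ = 2 * C₄ := by ring
  have hpt : ∀ n : ℤ, ∀ x y : ℝ, |x| * |y| ≤ X * (2 * C₄) →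
      |Wt N n * nuS lam z n * (x * y)| ≤ (z : ℝ) ^ 2 * (X * (2 * C₄)) := by
    intro n x y hxy
    rw [abs_mul, abs_mul, abs_mul, abs_of_nonneg (Wt_nonneg N n),
      abs_of_nonneg (nuS_nonneg lam z n)]
    have h1 : Wt N n * nuS lam z n ≤ (z : ℝ) ^ 2 := by
      calc Wt N n * nuS lam z n ≤ 1 * (z : ℝ) ^ 2 :=
            mul_le_mul (Wt_le_one N n) (nuS_le lam hlam.bd z n) (nuS_nonneg _ _ _) zero_le_one
        _ = (z : ℝ) ^ 2 := one_mul _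
    exact mul_le_mul h1 hxy (by positivity) (by positivity)
  have hp1 := hpt a (Rf c X a a) (Rf c' X a' a)
    (mul_le_mul (abs_Rf_le c hc.bd X a a) (hval c' hc' a' a ha' ha haa) (abs_nonneg _)
      (by positivity))
  have hp2 := hpt a' (Rf c X a a') (Rf c' X a' a')
    (by
      rw [mul_comm]
      exact mul_le_mul (abs_Rf_le c' hc'.bd X a' a') (hval c hc a a' ha ha' (Ne.symm haa))
        (abs_nonneg _) (by positivity))
  have htot : |∑' n : ℤ, Wt N n * nuS lam z n * (rf c X a n * rf c' X a' n)| ≤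
      (z : ℝ) ^ 2 * (K + 4 * C₄ * X) := by
    rw [hpts]
    have h1 := abs_sub (∑' n : ℤ, Wt N n * nuS lam z n * (Rf c X a n * Rf c' X a' n))
      (Wt N a * nuS lam z a * (Rf c X a a * Rf c' X a' a) +
        Wt N a' * nuS lam z a' * (Rf c X a a' * Rf c' X a' a'))
    have h2 := abs_add_le (Wt N a * nuS lam z a * (Rf c X a a * Rf c' X a' a))
      (Wt N a' * nuS lam z a' * (Rf c X a a' * Rf c' X a' a'))
    have h3 : (z : ℝ) ^ 2 * (K + 4 * C₄ * X) = (z : ℝ) ^ 2 * K +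
      ((z : ℝ) ^ 2 * (X * (2 * C₄)) + (z : ℝ) ^ 2 * (X * (2 * C₄))) := by ring
    rw [h3]
    exact h1.trans (add_le_add hpart1 (h2.trans (add_le_add hp1 hp2)))
  -- exponents
  have hKX : 0 ≤ K + 4 * C₄ * X := by positivity
  have hZ : ∀ s : ℝ, η + 2 * ε₀ + s ≤ 1 → (N : ℝ) ^ (2 * ε₀) * (N : ℝ) ^ s ≤
      (N : ℝ) ^ (1 - η) := by
    intro s hs
    rw [← Real.rpow_add hN0]
    exact hNle _ _ (by linarith)
  have g1 := hZ (1 - η₁) (by linarith)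
  have g2 : (N : ℝ) ^ (2 * ε₀) ≤ (N : ℝ) ^ (1 - η) := hNle _ _ (by linarith)
  have g3 := hZ (1 - ε) (by linarith)
  have g4 : (N : ℝ) ^ (2 * ε₀) * X ≤ (N : ℝ) ^ (1 - η) :=
    (mul_le_mul_of_nonneg_left hXθ (by positivity)).trans (hZ θ (by linarith))
  have g5 : (N : ℝ) ^ (2 * ε₀) * ((N + 1) * (N : ℝ) ^ (-(ε / 2))) ≤ 2 * (N : ℝ) ^ (1 - η) := by
    have h1 : ((N : ℝ) + 1) * (N : ℝ) ^ (-(ε / 2)) ≤ 2 * (N : ℝ) ^ (1 - ε / 2) := by
      have h2 : (N : ℝ) ^ (1 - ε / 2) = N * (N : ℝ) ^ (-(ε / 2)) := by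
        rw [sub_eq_add_neg, Real.rpow_add hN0, Real.rpow_one]
      rw [h2]
      have h3 : (0 : ℝ) ≤ (N : ℝ) ^ (-(ε / 2)) := by positivity
      nlinarith
    calc (N : ℝ) ^ (2 * ε₀) * ((N + 1) * (N : ℝ) ^ (-(ε / 2)))
        ≤ (N : ℝ) ^ (2 * ε₀) * (2 * (N : ℝ) ^ (1 - ε / 2)) :=
          mul_le_mul_of_nonneg_left h1 (by positivity)
      _ = 2 * ((N : ℝ) ^ (2 * ε₀) * (N : ℝ) ^ (1 - ε / 2)) := by ring
      _ ≤ 2 * (N : ℝ) ^ (1 - η) :=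
          mul_le_mul_of_nonneg_left (hZ (1 - ε / 2) (by linarith)) (by norm_num)
  calc |∑' n : ℤ, Wt N n * nuS lam z n * (rf c X a n * rf c' X a' n)|
      ≤ (z : ℝ) ^ 2 * (K + 4 * C₄ * X) := htot
    _ ≤ (N : ℝ) ^ (2 * ε₀) * (K + 4 * C₄ * X) := mul_le_mul_of_nonneg_right hz2 hKX
    _ = C₁ * ((N : ℝ) ^ (2 * ε₀) * (N : ℝ) ^ (1 - η₁)) + 3 * (N : ℝ) ^ (2 * ε₀) +
        C₂ * ((N : ℝ) ^ (2 * ε₀) * (N : ℝ) ^ (1 - ε)) + C₂ * ((N : ℝ) ^ (2 * ε₀) * X) +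
        3 * C₃ * ((N : ℝ) ^ (2 * ε₀) * ((N + 1) * (N : ℝ) ^ (-(ε / 2)))) +
        4 * C₄ * ((N : ℝ) ^ (2 * ε₀) * X) := by
        rw [hK]; ring
    _ ≤ C₁ * (N : ℝ) ^ (1 - η) + 3 * (N : ℝ) ^ (1 - η) + C₂ * (N : ℝ) ^ (1 - η) +
        C₂ * (N : ℝ) ^ (1 - η) + 3 * C₃ * (2 * (N : ℝ) ^ (1 - η)) +
        4 * C₄ * (N : ℝ) ^ (1 - η) := by
        gcongr
    _ = (C₁ + 3 + 2 * C₂ + 6 * C₃ + 4 * C₄) * (N : ℝ) ^ (1 - η) := by ring
    _ ≤ (Bs + (C₁ + 3 + 2 * C₂ + 6 * C₃ + 4 * C₄)) * (N : ℝ) ^ (1 - η) := by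
        refine mul_le_mul_of_nonneg_right ?_ (by positivity)
        linarith

end Pool.Agent.W48.RV
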